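import Pool.Agent.Helper10.RS.Core
import Pool.Agent.Helper11.LE.Goals1

/-!
# Project LE (MP_fc6b1e_nt), packet LE-CHR

From homomorphisms to ray class characters.
-/

namespace Pool.Agent.Helper42.LE

open NumberField Polynomial Module IsDedekindDomain Pool.Agent.Helper51.SigLeo
open Pool.Agent.Helper11.LE Pool.Agent.Helper10.CHR

section core

variable {K : Type} [Field K] [NumberField K]

/-- The last claim, for one homomorphism. -/
theorem lam_eq {p : ℕ} {S : Set (HeightOneSpectrum (𝓞 K))} {lm : Kˣ →* Multiplicative (ZMod p)}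
    (hU : ∀ x ∈ S.unit K, lm x = 1)
    (hpr : ∀ n : HeightOneSpectrum (𝓞 K) →₀ ℤ, ∃ x : Kˣ, ∀ w ∉ S,
      Pool.Agent.Helper38.RS.ordv w (x : K) = n w)
    (x : Kˣ) (Z : Finset (HeightOneSpectrum (𝓞 K)))
    (hx : ∀ w, w ∉ S → w ∉ Z → (p : ℤ) ∣ Pool.Agent.Helper38.RS.ordv w (x : K)) :
    Multiplicative.toAdd (lm x) =
      ∑ w ∈ Z, ((Pool.Agent.Helper38.RS.ordv w (x : K) : ℤ) : ZMod p) *
        Multiplicative.toAdd (psi0 S lm w.asIdeal) := by
  classical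
  have hA : ∀ a : Multiplicative (ZMod p), a ^ p = 1 := by
    intro a
    apply Multiplicative.toAdd.injective
    rw [toAdd_pow, nsmul_eq_mul, ZMod.natCast_self, zero_mul, toAdd_one]
  choose y hy using fun w : HeightOneSpectrum (𝓞 K) => exists_gen hpr w.asIdeal
  have hpsi : ∀ w : HeightOneSpectrum (𝓞 K), psi0 S lm w.asIdeal = lm (y w) :=
    fun w => psi0_eq hU (hy w)
  have hfinx : {w : HeightOneSpectrum (𝓞 K) |
      (if w ∈ Z then 0 else Pool.Agent.Helper38.RS.ordv w (x : K) / p) ≠ 0}.Finite := by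
    refine (Pool.Agent.Helper90.RS.finite_ordv (x : K) x.ne_zero).subset ?_
    intro w hw h0
    apply hw
    split_ifs
    · rfl
    · rw [h0, Int.zero_ediv]
  obtain ⟨z, hz⟩ := hpr (Finsupp.ofSupportFinite
    (fun w => if w ∈ Z then 0 else Pool.Agent.Helper38.RS.ordv w (x : K) / p) hfinx)
  have hz' : ∀ w, w ∉ S → Pool.Agent.Helper38.RS.ordv w (z : K) =
      if w ∈ Z then 0 else Pool.Agent.Helper38.RS.ordv w (x : K) / p :=
    fun w hw => hz w hw
  have hmem : x * (z ^ p)⁻¹ *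
      (∏ v ∈ Z, (y v) ^ (Pool.Agent.Helper38.RS.ordv v (x : K)))⁻¹ ∈ S.unit K := by
    apply mem_unit
    intro w hw
    rw [ordv_mul', ordv_mul', ordv_inv', ordv_inv', ordv_prod', ← zpow_natCast z p, ordv_zpow',
      hz' w hw]
    have h1 : ∀ v ∈ Z, Pool.Agent.Helper38.RS.ordv w
        ((y v ^ (Pool.Agent.Helper38.RS.ordv v (x : K)) : Kˣ) : K) =
        if v = w then Pool.Agent.Helper38.RS.ordv v (x : K) else 0 := by
      intro v _
      rw [ordv_zpow', hy v w hw, oI_prime]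
      split_ifs <;> simp
    rw [Finset.sum_congr rfl h1, Finset.sum_ite_eq' Z w]
    by_cases hc : w ∈ Z
    · rw [if_pos hc, if_pos hc]
      ring
    · rw [if_neg hc, if_neg hc, Int.mul_ediv_cancel' (hx w hw hc)]
      ring
  have h1 := hU _ hmem
  rw [map_mul, map_mul, map_inv, map_inv, map_pow, hA, map_prod, inv_one, mul_one,
    mul_inv_eq_one] at h1
  rw [h1, toAdd_prod]
  apply Finset.sum_congr rfl
  intro w _
  rw [hpsi, map_zpow, toAdd_zpow, zsmul_eq_mul]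

end core

/-- **L_CHR.** -/
theorem l_chr : L_CHR := by
  intro p hp K _ _ S hS hpr 𝔪₀ h𝔪₀ h𝔪₀S n lam hlU hlr hlne
  classical
  obtain ⟨lm, hlm⟩ : ∃ lm : Fin n → (Kˣ →* Multiplicative (ZMod p)), ∀ i x,
      lm i x = Multiplicative.ofAdd (lam i (Additive.ofMul x)) :=
    ⟨fun i => MonoidHom.mk' (fun x => Multiplicative.ofAdd (lam i (Additive.ofMul x)))
      (fun x y => by rw [ofMul_mul, map_add]; rfl), fun i x => rfl⟩
  have hU : ∀ i, ∀ x ∈ S.unit K, lm i x = 1 := by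
    intro i x hx
    rw [hlm, hlU i x hx]
    rfl
  have hpr' : ∀ n : HeightOneSpectrum (𝓞 K) →₀ ℤ, ∃ x : Kˣ, ∀ w ∉ S,
      Pool.Agent.Helper38.RS.ordv w (x : K) = n w := hpr
  have h𝔫S : ∀ w : HeightOneSpectrum (𝓞 K), 𝔪₀ ≤ w.asIdeal → w ∈ S := by
    intro w hw
    apply h𝔪₀S
    rw [sup_eq_left.2 hw]
    exact w.isPrime.ne_top
  obtain ⟨𝔪, h𝔪⟩ : ∃ 𝔪 : Ideal (𝓞 K), 𝔪 = 𝔪₀ * ∏ v ∈ hS.toFinset, v.asIdeal := ⟨_, rfl⟩
  have hle : 𝔪 ≤ 𝔪₀ := by rw [h𝔪]; exact Ideal.mul_le_left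
  refine ⟨𝔪, fun i I => Multiplicative.toAdd (psi0 S (lm i) I), ?_, ⟨?_, ?_, ?_⟩, ?_, ?_⟩
  · intro w
    rw [h𝔪]
    exact cop_iff S hS 𝔪₀ h𝔫S w
  · rw [h𝔪]
    exact mod_ne S hS 𝔪₀ h𝔪₀
  · intro i I J hI hJ _ _
    rw [psi0_mul (hU i) hpr' hI hJ, toAdd_mul]
  · intro i α hα hα1
    have hα0 : (α : K) ≠ 0 := by simpa using hα
    have h2 : lm i (Units.mk0 (α : K) hα0) = 1 := by
      rw [hlm, hlr i α _ rfl (hle hα1)]
      rfl
    rw [psi0_span (hU i) hα (Units.mk0 (α : K) hα0) rfl, h2, toAdd_one]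
  · intro c hc
    obtain ⟨x, hx⟩ := hlne c hc
    obtain ⟨lc, hlc⟩ : ∃ lc : Kˣ →* Multiplicative (ZMod p), ∀ x,
        lc x = Multiplicative.ofAdd (∑ i, c i * lam i (Additive.ofMul x)) :=
      ⟨MonoidHom.mk' (fun x => Multiplicative.ofAdd (∑ i, c i * lam i (Additive.ofMul x)))
        (fun x y => by
          rw [← ofAdd_add, ← Finset.sum_add_distrib]
          congr 1
          refine Finset.sum_congr rfl fun i _ => ?_
          rw [ofMul_mul, map_add, mul_add]), fun x => rfl⟩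
    have hUc : ∀ x ∈ S.unit K, lc x = 1 := by
      intro x hx
      rw [hlc, Finset.sum_eq_zero fun i _ => by rw [hlU i x hx, mul_zero]]
      rfl
    obtain ⟨w, hw, hw1⟩ := exists_prime hUc hpr' ⟨x, by
      rw [hlc]
      intro h
      exact hx (Multiplicative.ofAdd.injective h)⟩
    refine ⟨w.asIdeal, w.ne_bot, by rw [h𝔪]; exact (cop_iff S hS 𝔪₀ h𝔫S w).2 hw, ?_⟩
    intro h
    apply hw1
    obtain ⟨y, hy⟩ := exists_gen hpr' w.asIdeal
    rw [psi0_eq hUc hy, hlc]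
    have h3 : ∀ i, Multiplicative.toAdd (psi0 S (lm i) w.asIdeal) = lam i (Additive.ofMul y) := by
      intro i
      rw [psi0_eq (hU i) hy, hlm, toAdd_ofAdd]
    have h4 : ∑ i, c i * lam i (Additive.ofMul y) = 0 := by
      rw [← h]
      refine Finset.sum_congr rfl fun i _ => ?_
      rw [← h3 i]
    rw [h4]
    rfl
  · intro x Z _ hx i
    have h := lam_eq (hU i) hpr' x Z hx
    rw [hlm, toAdd_ofAdd] at h
    exact h

end Pool.Agent.Helper42.LE
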